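import Pool.Agent.H580.MF.Iso
import Pool.Agent.H580.EC.Crit3

set_option autoImplicit false

open MeasureTheory Set Filter
open scoped Topology ENNReal

/-!
# Level sets of small boundary
-/

namespace Pool.Agent.H580.EC

open Pool.Agent.Results.MP_e13933_pr.HalfSpace (V P cluster openGraph pc)
open Pool.Agent.H580.MF (sg bdry cluster_mono mem_self cluster_sub cluster_open cluster_step
  walk_induce step_unit)

noncomputable section

variable {d : ℕ}

lemma harm {ι : Type*} [DecidableEq ι] (r : ι → ℕ) : ∀ (n : ℕ) (Y : Finset ι), Y.card = n →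
    (∀ m, (Y.filter fun y => r y ≤ m).card ≤ m) →
    ∑ y ∈ Y, (1 : ℝ) / r y ≤ ∑ i ∈ Finset.range n, (1 : ℝ) / ((i : ℝ) + 1) := by
  intro n
  induction n with
  | zero =>
    intro Y hY _
    rw [Finset.card_eq_zero.1 hY]
    simp
  | succ n ih =>
    intro Y hY h
    have hne : Y.Nonempty := by
      rw [← Finset.card_pos]
      omega
    obtain ⟨y0, hy0, hmax⟩ := Finset.exists_max_image Y r hne
    have hr : n + 1 ≤ r y0 := by
      have h1 := h (r y0)
      rw [Finset.filter_true_of_mem (fun y hy => hmax y hy), hY] at h1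
      exact h1
    have h2 := ih (Y.erase y0) (by rw [Finset.card_erase_of_mem hy0, hY]; rfl) (fun m =>
      (Finset.card_le_card (Finset.filter_subset_filter _ (Finset.erase_subset _ _))).trans (h m))
    rw [← Finset.add_sum_erase Y _ hy0, Finset.sum_range_succ, add_comm]
    refine add_le_add h2 ?_
    have h3 : ((n : ℝ) + 1) ≤ r y0 := by exact_mod_cast hr
    exact one_div_le_one_div_of_le (by positivity) h3

lemma harm_log {ι : Type*} [DecidableEq ι] (r : ι → ℕ) (Y : Finset ι)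
    (h : ∀ m, (Y.filter fun y => r y ≤ m).card ≤ m) :
    ∑ y ∈ Y, (1 : ℝ) / r y ≤ 1 + Real.log Y.card := by
  refine (harm r _ Y rfl h).trans ?_
  have h1 := harmonic_le_one_add_log Y.card
  refine le_trans (le_of_eq ?_) h1
  unfold harmonic
  push_cast
  refine Finset.sum_congr rfl fun i _ => ?_
  rw [one_div]

lemma integ {ι : Type*} (J : Finset ι) (a α β : ι → ℝ) (ha : ∀ j ∈ J, 0 ≤ a j) {M : ℝ}
    (h : ∀ t ∈ Ioc (0 : ℝ) 1, M ≤ ∑ j ∈ J, if t ∈ Ioc (α j) (β j) then a j else 0) :
    M ≤ ∑ j ∈ J, a j * max (β j - α j) 0 := by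
  have hint : ∀ j ∈ J, Integrable (fun t : ℝ => if t ∈ Ioc (α j) (β j) then a j else 0)
      (volume.restrict (Ioc (0 : ℝ) 1)) := by
    intro j _
    have e : (fun t : ℝ => if t ∈ Ioc (α j) (β j) then a j else 0) =
        (Ioc (α j) (β j)).indicator fun _ => a j := by
      ext t
      simp only [indicator]
    rw [e]
    exact (integrable_const (a j)).indicator measurableSet_Ioc
  have h1 : ∫ _ in Ioc (0 : ℝ) 1, M = M := by
    rw [setIntegral_const]
    simp
  rw [← h1]
  calc ∫ _ in Ioc (0 : ℝ) 1, M ≤ ∫ t in Ioc (0 : ℝ) 1,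
        ∑ j ∈ J, (if t ∈ Ioc (α j) (β j) then a j else 0) := by
        refine setIntegral_mono_on (integrable_const _) (integrable_finsetSum _ hint)
          measurableSet_Ioc h
    _ = ∑ j ∈ J, ∫ t in Ioc (0 : ℝ) 1, (if t ∈ Ioc (α j) (β j) then a j else 0) :=
        integral_finsetSum _ hint
    _ ≤ ∑ j ∈ J, a j * max (β j - α j) 0 := by
        refine Finset.sum_le_sum fun j hj => ?_
        have e : (fun t : ℝ => if t ∈ Ioc (α j) (β j) then a j else 0) =
            (Ioc (α j) (β j)).indicator fun _ => a j := by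
          ext t
          simp only [indicator]
        rw [e, setIntegral_indicator measurableSet_Ioc, setIntegral_const, smul_eq_mul, mul_comm]
        refine mul_le_mul_of_nonneg_left ?_ (ha j hj)
        refine (measureReal_mono inter_subset_right (by
          rw [Real.volume_Ioc]; exact ENNReal.ofReal_ne_top)).trans ?_
        rw [measureReal_def, Real.volume_Ioc, ENNReal.toReal_ofReal']

/-! ### Directed energies -/

lemma energy_dir (ω : V d → Bool) {f : V d → ℝ} (h0 : ∀ x, 0 ≤ f x)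
    (hf : (Function.support f).Finite) (s : Finset (V d)) :
    ∑ y ∈ s, ∑ u : Fin d × Bool, (if ω y = true ∧ ω (y + Pi.single u.1 (sg u.2)) = true then
      (max (f y - f (y + Pi.single u.1 (sg u.2))) 0) ^ 2 else 0) ≤ energy ω f := by
  -- the two directions
  have hF : ∀ i : Fin d, ∀ σ : Bool, Summable fun y : V d =>
      (if ω y = true ∧ ω (y + Pi.single i (sg σ)) = true then
        (max (f y - f (y + Pi.single i (sg σ))) 0) ^ 2 else 0 : ℝ) := by
    intro i σ
    refine summable_of_hasFiniteSupport (hf.subset fun y hy => ?_)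
    rw [Function.mem_support] at hy ⊢
    intro h
    apply hy
    rw [h, max_eq_right (by linarith [h0 (y + Pi.single i (sg σ))])]
    simp
  have hE : ∀ i : Fin d, Summable fun y : V d =>
      (if ω y = true ∧ ω (y + Pi.single i 1) = true then
        (f (y + Pi.single i 1) - f y) ^ 2 else 0 : ℝ) := by
    intro i
    refine summable_of_hasFiniteSupport ((hf.union (hf.preimage
      (f := fun y : V d => y + Pi.single i 1) ((add_left_injective _).injOn))).subset
        fun y hy => ?_)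
    rw [Function.mem_support] at hy
    by_contra hcon
    rw [mem_union, not_or, Function.notMem_support] at hcon
    have h2 : f (y + Pi.single i 1) = 0 := by
      by_contra h
      exact hcon.2 h
    apply hy
    rw [hcon.1, h2]
    simp
  have hi : ∀ i : Fin d, (∑ y ∈ s, ∑ σ : Bool,
      (if ω y = true ∧ ω (y + Pi.single i (sg σ)) = true then
        (max (f y - f (y + Pi.single i (sg σ))) 0) ^ 2 else 0 : ℝ)) ≤
      ∑' y : V d, (if ω y = true ∧ ω (y + Pi.single i 1) = true then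
        (f (y + Pi.single i 1) - f y) ^ 2 else 0 : ℝ) := by
    intro i
    simp only [Fintype.sum_bool]
    rw [Finset.sum_add_distrib]
    have h1 := (hF i true).sum_le_tsum s (fun y _ => by split_ifs <;> positivity)
    have h2 := (hF i false).sum_le_tsum s (fun y _ => by split_ifs <;> positivity)
    have h3 := (Equiv.addRight (Pi.single i 1 : V d)).tsum_eq (fun y : V d =>
      (if ω y = true ∧ ω (y + Pi.single i (sg false)) = true then
        (max (f y - f (y + Pi.single i (sg false))) 0) ^ 2 else 0 : ℝ))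
    have h4 : Summable fun y : V d =>
      (if ω (y + Pi.single i 1) = true ∧ ω (y + Pi.single i 1 + Pi.single i (sg false)) = true then
        (max (f (y + Pi.single i 1) - f (y + Pi.single i 1 + Pi.single i (sg false))) 0) ^ 2
          else 0 : ℝ) :=
      ((Equiv.addRight (Pi.single i 1 : V d)).summable_iff).2 (hF i false)
    simp only [Equiv.coe_addRight] at h3
    refine (add_le_add h1 h2).trans ?_
    rw [← h3, ← (hF i true).tsum_add h4]
    refine le_of_eq (tsum_congr fun y => ?_)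
    have e : ∀ y : V d, y + Pi.single i 1 + Pi.single i (sg false) = y := by
      intro y
      rw [add_assoc, ← Pi.single_add]
      simp [sg]
    have e' : (sg true : ℤ) = 1 := rfl
    simp only [e, e']
    by_cases h5 : ω y = true ∧ ω (y + Pi.single i 1) = true
    · rw [if_pos h5, if_pos h5, if_pos ⟨h5.2, h5.1⟩]
      rcases le_total (f y) (f (y + Pi.single i 1)) with h6 | h6
      · rw [max_eq_right (by linarith), max_eq_left (by linarith)]
        ring
      · rw [max_eq_left (by linarith), max_eq_right (by linarith)]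
        ring
    · rw [if_neg h5, if_neg h5, if_neg (fun h => h5 ⟨h.2, h.1⟩)]
      simp
  unfold energy
  rw [Summable.tsum_finsetSum (fun i _ => hE i)]
  have h7 : ∑ y ∈ s, ∑ u : Fin d × Bool, (if ω y = true ∧ ω (y + Pi.single u.1 (sg u.2)) = true then
      (max (f y - f (y + Pi.single u.1 (sg u.2))) 0) ^ 2 else 0 : ℝ) =
      ∑ i : Fin d, ∑ y ∈ s, ∑ σ : Bool,
      (if ω y = true ∧ ω (y + Pi.single i (sg σ)) = true then
        (max (f y - f (y + Pi.single i (sg σ))) 0) ^ 2 else 0 : ℝ) := by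
    rw [Finset.sum_comm (s := Finset.univ) (t := s)]
    refine Finset.sum_congr rfl fun y _ => ?_
    rw [Fintype.sum_prod_type]
  rw [h7]
  exact Finset.sum_le_sum fun i _ => hi i

/-! ### Level sets -/

/-- the superlevel set -/
def Lv (f : V d → ℝ) (t : ℝ) : Set (V d) := {y | t ≤ f y}

open Classical in
/-- the cluster of `x` in the superlevel set -/
def Hf (ω : V d → Bool) (f : V d → ℝ) (s : Finset (V d)) (x : V d) (t : ℝ) : Finset (V d) :=
  s.filter fun y => y ∈ cluster ω (Lv f t) x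

lemma mem_Hf {ω : V d → Bool} {f : V d → ℝ} {s : Finset (V d)} {x : V d} {t : ℝ}
    (hs : Function.support f ⊆ s) (ht : 0 < t) {y : V d} :
    y ∈ Hf ω f s x t ↔ y ∈ cluster ω (Lv f t) x := by
  classical
  unfold Hf
  rw [Finset.mem_filter]
  refine ⟨fun h => h.2, fun h => ⟨?_, h⟩⟩
  have h1 : t ≤ f y := cluster_sub ω _ x h
  exact hs (show f y ≠ 0 by linarith)

lemma Hf_anti {ω : V d → Bool} {f : V d → ℝ} {s : Finset (V d)} {x : V d} {t t' : ℝ}
    (h : t ≤ t') : Hf ω f s x t' ⊆ Hf ω f s x t := by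
  classical
  unfold Hf
  intro y hy
  rw [Finset.mem_filter] at hy ⊢
  refine ⟨hy.1, cluster_mono (fun z hz => ?_) x hy.2⟩
  exact le_trans h hz

lemma Hf_bdry {ω : V d → Bool} {f : V d → ℝ} {s : Finset (V d)} {x : V d} {t : ℝ}
    (hs : Function.support f ⊆ s) (ht : 0 < t) {y z : V d} (hy : y ∈ Hf ω f s x t)
    (hz : z ∉ Hf ω f s x t) (h : (openGraph ω univ).Adj y z) : f z < t ∧ t ≤ f y := by
  rw [mem_Hf hs ht] at hy hz
  refine ⟨?_, cluster_sub ω _ x hy⟩
  by_contra hcon
  rw [not_lt] at hcon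
  exact hz (cluster_step hy h.1 h.2.2.2 hcon)

/-- **Level sets of small boundary.** -/
theorem level (ω : V d → Bool) {f : V d → ℝ} {s : Finset (V d)} {x : V d}
    (hs : Function.support f ⊆ s) (h0 : ∀ y, 0 ≤ f y) (hx : ω x = true) (hfx : f x = 1) :
    ∃ t ∈ Ioc (0 : ℝ) 1, ((bdry ω (Hf ω f s x t)).ncard : ℝ) ^ 2 ≤
      2 * d * (1 + Real.log s.card) * energy ω f * (Hf ω f s x t).card := by
  classical
  obtain ⟨H, hH⟩ : ∃ H : ℝ → Finset (V d), H = Hf ω f s x := ⟨_, rfl⟩
  have hHx : ∀ t ∈ Ioc (0 : ℝ) 1, x ∈ H t := by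
    intro t ht
    rw [hH, mem_Hf hs ht.1]
    exact mem_self hx (show t ≤ f x by rw [hfx]; exact ht.2)
  have hN1 : ∀ t ∈ Ioc (0 : ℝ) 1, 0 < (H t).card := fun t ht => Finset.card_pos.2 ⟨x, hHx t ht⟩
  -- the minimal ratio is attained
  obtain ⟨t0, ht0, hmin⟩ : ∃ t0 ∈ Ioc (0 : ℝ) 1, ∀ t ∈ Ioc (0 : ℝ) 1,
      ((bdry ω (H t0)).ncard : ℝ) / √((H t0).card) ≤ ((bdry ω (H t)).ncard : ℝ) / √((H t).card) := by
    have hfin : (H '' Ioc (0 : ℝ) 1).Finite := by
      refine (s.powerset.finite_toSet).subset ?_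
      rintro _ ⟨t, _, rfl⟩
      rw [Finset.mem_coe, Finset.mem_powerset, hH]
      exact Finset.filter_subset _ _
    obtain ⟨A, ⟨t0, ht0, rfl⟩, hmin⟩ := Set.exists_min_image (H '' Ioc (0 : ℝ) 1)
      (fun A => ((bdry ω A).ncard : ℝ) / √(A.card)) hfin ⟨H 1, 1, by simp, rfl⟩
    exact ⟨t0, ht0, fun t ht => hmin _ ⟨t, ht, rfl⟩⟩
  refine ⟨t0, ht0, ?_⟩
  rw [← hH]
  -- the rank of a vertex
  obtain ⟨rk, hrk⟩ : ∃ rk : V d → ℕ, rk = fun y =>
    sInf {m : ℕ | ∃ t ∈ Ioc (0 : ℝ) 1, y ∈ H t ∧ (H t).card = m} := ⟨_, rfl⟩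
  obtain ⟨Y, hY⟩ : ∃ Y : Finset (V d), Y = s.filter fun y => ∃ t ∈ Ioc (0 : ℝ) 1, y ∈ H t :=
    ⟨_, rfl⟩
  have hYt : ∀ y ∈ Y, ∃ t ∈ Ioc (0 : ℝ) 1, y ∈ H t ∧ (H t).card = rk y := by
    intro y hy
    rw [hY, Finset.mem_filter] at hy
    obtain ⟨t, ht, hyt⟩ := hy.2
    have hne : {m : ℕ | ∃ t ∈ Ioc (0 : ℝ) 1, y ∈ H t ∧ (H t).card = m}.Nonempty :=
      ⟨_, t, ht, hyt, rfl⟩
    have := Nat.sInf_mem hne
    rw [hrk]
    exact this
  have hrk_le : ∀ t ∈ Ioc (0 : ℝ) 1, ∀ y ∈ H t, rk y ≤ (H t).card := by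
    intro t ht y hy
    rw [hrk]
    exact Nat.sInf_le ⟨t, ht, hy, rfl⟩
  have hrk_pos : ∀ y ∈ Y, 0 < rk y := by
    intro y hy
    obtain ⟨t, ht, -, h2⟩ := hYt y hy
    rw [← h2]
    exact hN1 t ht
  have hcount : ∀ m, (Y.filter fun y => rk y ≤ m).card ≤ m := by
    intro m
    rcases (Y.filter fun y => rk y ≤ m).eq_empty_or_nonempty with he | hne
    · rw [he]
      simp
    · choose! τ hτ1 hτ2 hτ3 using hYt
      obtain ⟨y0, hy0, hmin0⟩ := Finset.exists_min_image (Y.filter fun y => rk y ≤ m) τ hne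
      rw [Finset.mem_filter] at hy0
      have hsub : (Y.filter fun y => rk y ≤ m) ⊆ H (τ y0) := by
        intro y hy
        have h1 := hmin0 y hy
        rw [Finset.mem_filter] at hy
        have h2 := hτ2 y hy.1
        rw [hH] at h2 ⊢
        exact Hf_anti h1 h2
      calc (Y.filter fun y => rk y ≤ m).card ≤ (H (τ y0)).card := Finset.card_le_card hsub
        _ = rk y0 := hτ3 y0 hy0.1
        _ ≤ m := hy0.2
  -- the directed edges
  obtain ⟨J, hJ⟩ : ∃ J : Finset (V d × (Fin d × Bool)), J =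
    (Y ×ˢ (Finset.univ : Finset (Fin d × Bool))).filter fun q =>
      ω q.1 = true ∧ ω (q.1 + Pi.single q.2.1 (sg q.2.2)) = true := ⟨_, rfl⟩
  have hbd : ∀ t ∈ Ioc (0 : ℝ) 1, ((bdry ω (H t)).ncard : ℝ) / √((H t).card) ≤
      ∑ q ∈ J, if t ∈ Ioc (f (q.1 + Pi.single q.2.1 (sg q.2.2))) (f q.1) then
        1 / √(rk q.1) else 0 := by
    intro t ht
    obtain ⟨J', hJ'⟩ : ∃ J', J' = J.filter fun q => q.1 ∈ H t ∧
      t ∈ Ioc (f (q.1 + Pi.single q.2.1 (sg q.2.2))) (f q.1) := ⟨_, rfl⟩
    have hsub : bdry ω (H t) ⊆ (J'.image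
        fun q : V d × (Fin d × Bool) => (q.1, q.1 + Pi.single q.2.1 (sg q.2.2)) :
          Finset (V d × V d)) := by
      rintro ⟨y, w⟩ he
      obtain ⟨i, σ, hw⟩ := step_unit he.2.2.1
      have hw' : w = y + Pi.single i (sg σ) := hw
      have h1 := he.1
      have h2 := he.2.1
      have h3 := he.2.2
      simp only at h1 h2 h3
      rw [Finset.mem_coe, Finset.mem_image]
      refine ⟨(y, (i, σ)), ?_, by rw [hw']⟩
      have h4 : f w < t ∧ t ≤ f y := by
        rw [hH] at h1 h2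
        exact Hf_bdry hs ht.1 h1 h2 h3
      rw [hJ', Finset.mem_filter, hJ, Finset.mem_filter, Finset.mem_product, hY, Finset.mem_filter]
      refine ⟨⟨⟨⟨?_, t, ht, h1⟩, Finset.mem_univ _⟩, h3.2.1.2, ?_⟩, h1, ?_⟩
      · refine hs (show f y ≠ 0 from ?_)
        have := ht.1
        intro h
        linarith [h4.2]
      · show ω (y + Pi.single i (sg σ)) = true
        rw [← hw']
        exact h3.2.2.2
      · show t ∈ Ioc (f (y + Pi.single i (sg σ))) (f y)
        rw [← hw']
        exact h4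
    have h5 : (bdry ω (H t)).ncard ≤ J'.card := by
      calc (bdry ω (H t)).ncard ≤ _ := Set.ncard_le_ncard hsub (Finset.finite_toSet _)
        _ = _ := Set.ncard_coe_finset _
        _ ≤ _ := Finset.card_image_le
    have hN0 : (0 : ℝ) < (H t).card := by exact_mod_cast hN1 t ht
    calc ((bdry ω (H t)).ncard : ℝ) / √((H t).card) ≤ (J'.card : ℝ) / √((H t).card) := by
          refine div_le_div_of_nonneg_right ?_ (Real.sqrt_nonneg _)
          exact_mod_cast h5
      _ = ∑ q ∈ J', 1 / √((H t).card) := by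
          rw [Finset.sum_const, nsmul_eq_mul]
          ring
      _ ≤ ∑ q ∈ J', 1 / √(rk q.1) := by
          refine Finset.sum_le_sum fun q hq => ?_
          rw [hJ', Finset.mem_filter, hJ, Finset.mem_filter, Finset.mem_product] at hq
          have h6 := hrk_pos q.1 hq.1.1.1
          have h7 := hrk_le t ht q.1 hq.2.1
          refine one_div_le_one_div_of_le (Real.sqrt_pos.2 (by exact_mod_cast h6))
            (Real.sqrt_le_sqrt (by exact_mod_cast h7))
      _ ≤ ∑ q ∈ J, if t ∈ Ioc (f (q.1 + Pi.single q.2.1 (sg q.2.2))) (f q.1) then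
        1 / √(rk q.1) else 0 := by
          rw [← Finset.sum_filter]
          refine Finset.sum_le_sum_of_subset_of_nonneg ?_ fun q _ _ => by positivity
          rw [hJ']
          intro q hq
          rw [Finset.mem_filter] at hq ⊢
          exact ⟨hq.1, hq.2.2⟩
  obtain ⟨M, hM⟩ : ∃ M, M = ((bdry ω (H t0)).ncard : ℝ) / √((H t0).card) := ⟨_, rfl⟩
  have hM0 : 0 ≤ M := by rw [hM]; positivity
  have hint : M ≤ ∑ q ∈ J, 1 / √(rk q.1) *
      max (f q.1 - f (q.1 + Pi.single q.2.1 (sg q.2.2))) 0 := by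
    refine integ J (fun q => 1 / √(rk q.1)) (fun q => f (q.1 + Pi.single q.2.1 (sg q.2.2)))
      (fun q => f q.1) (fun q _ => by positivity) fun t ht => ?_
    rw [hM]
    exact (hmin t ht).trans (hbd t ht)
  -- Cauchy-Schwarz
  have hCS : M ^ 2 ≤ (∑ q ∈ J, (1 / √(rk q.1 : ℝ)) ^ 2) *
      ∑ q ∈ J, (max (f q.1 - f (q.1 + Pi.single q.2.1 (sg q.2.2))) 0) ^ 2 :=
    (pow_le_pow_left₀ hM0 hint 2).trans (Finset.sum_mul_sq_le_sq_mul_sq _ _ _)
  have hA : ∑ q ∈ J, (1 / √(rk q.1 : ℝ)) ^ 2 ≤ 2 * d * (1 + Real.log s.card) := by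
    have h1 : ∑ q ∈ J, (1 / √(rk q.1 : ℝ)) ^ 2 ≤
        ∑ q ∈ Y ×ˢ (Finset.univ : Finset (Fin d × Bool)), (1 : ℝ) / rk q.1 := by
      rw [hJ]
      refine (Finset.sum_le_sum_of_subset_of_nonneg (Finset.filter_subset _ _)
        fun q _ _ => by positivity).trans (le_of_eq ?_)
      refine Finset.sum_congr rfl fun q _ => ?_
      rw [div_pow, one_pow, Real.sq_sqrt (Nat.cast_nonneg _)]
    have h2 : ∑ q ∈ Y ×ˢ (Finset.univ : Finset (Fin d × Bool)), (1 : ℝ) / rk q.1 =
        2 * d * ∑ y ∈ Y, (1 : ℝ) / rk y := by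
      rw [Finset.sum_product, Finset.mul_sum]
      refine Finset.sum_congr rfl fun y _ => ?_
      show ∑ _u : Fin d × Bool, (1 : ℝ) / rk y = 2 * d * (1 / rk y)
      rw [Finset.sum_const, Finset.card_univ, Fintype.card_prod, Fintype.card_fin,
        Fintype.card_bool, nsmul_eq_mul]
      push_cast
      ring
    have h3 := harm_log rk Y hcount
    have h4 : Real.log Y.card ≤ Real.log s.card := by
      have h5 : 0 < Y.card := by
        refine Finset.card_pos.2 ⟨x, ?_⟩
        rw [hY, Finset.mem_filter]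
        refine ⟨hs (show f x ≠ 0 by rw [hfx]; norm_num), 1, by simp, hHx 1 (by simp)⟩
      refine Real.log_le_log (by exact_mod_cast h5) ?_
      have : Y.card ≤ s.card := by
        rw [hY]
        exact Finset.card_filter_le _ _
      exact_mod_cast this
    rw [h2] at h1
    refine h1.trans (mul_le_mul_of_nonneg_left (by linarith) (by positivity))
  have hB : ∑ q ∈ J, (max (f q.1 - f (q.1 + Pi.single q.2.1 (sg q.2.2))) 0) ^ 2 ≤ energy ω f := by
    rw [hJ, Finset.sum_filter, Finset.sum_product]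
    exact energy_dir ω h0 (s.finite_toSet.subset hs) Y
  have hfinal : M ^ 2 ≤ 2 * d * (1 + Real.log s.card) * energy ω f := by
    refine hCS.trans (mul_le_mul hA hB (Finset.sum_nonneg fun q _ => sq_nonneg _) ?_)
    refine le_trans (Finset.sum_nonneg fun q _ => sq_nonneg _) hA
  have hN0 : (0 : ℝ) < (H t0).card := by exact_mod_cast hN1 t0 ht0
  have e : ((bdry ω (H t0)).ncard : ℝ) ^ 2 = M ^ 2 * (H t0).card := by
    rw [hM, div_pow, Real.sq_sqrt hN0.le]
    field_simp
  rw [e]
  exact mul_le_mul_of_nonneg_right hfinal hN0.le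

/-- the clusters in the level sets are connected -/
lemma Hf_conn {ω : V d → Bool} {f : V d → ℝ} {s : Finset (V d)} {x : V d} {t : ℝ}
    (hs : Function.support f ⊆ s) (ht : t ∈ Ioc (0 : ℝ) 1) (hx : ω x = true) (hfx : f x = 1) :
    ((openGraph ω univ).induce (Hf ω f s x t : Set (V d))).Connected := by
  have hxH : x ∈ (Hf ω f s x t : Set (V d)) := by
    rw [Finset.mem_coe, mem_Hf hs ht.1]
    exact mem_self hx (show t ≤ f x by rw [hfx]; exact ht.2)
  have key : ∀ y : (Hf ω f s x t : Set (V d)),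
      ((openGraph ω univ).induce (Hf ω f s x t : Set (V d))).Reachable ⟨x, hxH⟩ y := by
    rintro ⟨y, hy⟩
    have hy' : y ∈ cluster ω (Lv f t) x := by
      rw [Finset.mem_coe, mem_Hf hs ht.1] at hy
      exact hy
    obtain ⟨p⟩ := hy'.2
    obtain ⟨_, h⟩ := walk_induce (x := x) p (Hf ω f s x t : Set (V d))
      (fun y => by rw [Finset.mem_coe, mem_Hf hs ht.1]) hxH
    exact h
  have : Nonempty (Hf ω f s x t : Set (V d)) := ⟨⟨x, hxH⟩⟩
  exact ⟨fun y y' => (key y).symm.trans (key y')⟩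

end

end Pool.Agent.H580.EC
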