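import Pool.Agent.H580.EC.Iso1

set_option autoImplicit false

open MeasureTheory Set Filter
open scoped Topology ENNReal

/-!
# Connected sets of small boundary at and near the critical point
-/

namespace Pool.Agent.H580.EC

open Pool.Agent.Results.MP_e13933_pr.HalfSpace (V P cluster openGraph pc)
open Pool.Agent.H979.PC (mu bx mem_bx card_bx sh mp_sh measurable_sh)
open Pool.Agent.H580.MF (sg bdry cluster_mono mem_self cluster_sub cluster_open cluster_step
  walk_induce step_unit)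

noncomputable section

variable {d : ℕ}

/-- there is a test function of small energy between the box of radius `k` around `z` and the
outside of the box of radius `n` -/
def Good (z : V d) (k n : ℕ) (a : ℝ) : Set (V d → Bool) :=
  {ω | ∃ f : V d → ℝ, Function.support f ⊆ (bx z n : Set (V d)) ∧ (∀ x, 0 ≤ f x) ∧
    (∀ x ∈ bx z k, f x = 1) ∧ energy ω f ≤ a}

lemma good_prob (hd : 3 ≤ d) : ∃ (A B : ℕ) (c : ℝ), 1 ≤ A ∧ 0 < c ∧ c ≤ 1 ∧
    ∀ (k : ℕ) (p : unitInterval), (p : ℝ) ≤ pc d + c / ((k : ℝ) + 2) ^ B →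
      ∀ (z : V d) (s : ℝ),
        (mu d p) (Good z k ((k + 2) ^ A) (16 * d * ((A + s) * Real.log ((k : ℝ) + 2))))ᶜ ≤
          ENNReal.ofReal (((k : ℝ) + 2) ^ (-s) / c) := by
  obtain ⟨A, B, c, C, hA, hc, hc1, hC, h⟩ := main_bound hd
  refine ⟨A, B, c, hA, hc, hc1, fun k p hp z s => ?_⟩
  obtain ⟨-, Φ, hΦ0, hΦ1, hΦ2, -⟩ := h k p hp
  have hk2 : (0 : ℝ) < (k : ℝ) + 2 := by positivity
  obtain ⟨n, hn⟩ : ∃ n, n = (k + 2) ^ A := ⟨_, rfl⟩
  rw [← hn] at hΦ1 hΦ2 ⊢
  obtain ⟨a, ha⟩ : ∃ a, a = (A + s) * Real.log ((k : ℝ) + 2) := ⟨_, rfl⟩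
  rw [← ha]
  -- reduction to the origin
  have hsub : (Good z k n (16 * d * a))ᶜ ⊆
      sh z ⁻¹' {ω : V d → Bool | a ≤ Φ (op ω (bx 0 n))} := by
    intro ω hω
    rw [mem_preimage]
    show a ≤ Φ (op (sh z ω) (bx 0 n))
    by_contra hcon
    rw [not_le] at hcon
    apply hω
    obtain ⟨f, h1, h2, h3, h4⟩ := hΦ1 (sh z ω)
    refine ⟨fun x => f (x - z), ?_, fun x => (h2 _).1, fun x hx => h3 _ (mem_bx_sub.2 hx), ?_⟩
    · intro x hx
      exact mem_bx_sub.1 (h1 (show f (x - z) ≠ 0 from hx))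
    · have e : energy (sh z ω) f = energy ω (fun x => f (x - z)) := by
        rw [← energy_sh z ω (fun x => f (x - z))]
        simp only [add_sub_cancel_right]
      rw [← e]
      refine h4.trans ?_
      have : (0 : ℝ) ≤ 16 * d := by positivity
      exact mul_le_mul_of_nonneg_left hcon.le this
  have hms : MeasurableSet {ω : V d → Bool | a ≤ Φ (op ω (bx 0 n))} :=
    measSet_op (bx 0 n) fun T => a ≤ Φ T
  refine (measure_mono hsub).trans ?_
  rw [(mp_sh p z).measure_preimage hms.nullMeasurableSet]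
  have h3 := mul_meas_ge_le_integral_of_nonneg (μ := mu d p)
    (f := fun ω : V d → Bool => Real.exp (Φ (op ω (bx 0 n))))
    (Eventually.of_forall fun ω => (Real.exp_pos _).le)
    (integrable_op (fun _ => p) (bx 0 n) fun T => Real.exp (Φ T)) (Real.exp a)
  have e : {ω : V d → Bool | Real.exp a ≤ Real.exp (Φ (op ω (bx 0 n)))} =
      {ω | a ≤ Φ (op ω (bx 0 n))} := by
    ext ω
    simp only [mem_ofPred_eq, Real.exp_le_exp]
  rw [e] at h3
  rw [← ofReal_measureReal]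
  refine ENNReal.ofReal_le_ofReal ?_
  have h4 := h3.trans hΦ2
  have h5 : Real.exp a = ((k : ℝ) + 2) ^ A * ((k : ℝ) + 2) ^ s := by
    rw [ha, ← Real.rpow_natCast, ← Real.rpow_add hk2, Real.rpow_def_of_pos hk2, mul_comm]
  rw [h5] at h4
  have h6 : (0 : ℝ) < ((k : ℝ) + 2) ^ A := by positivity
  have h7 : (0 : ℝ) < ((k : ℝ) + 2) ^ s := Real.rpow_pos_of_pos hk2 s
  rw [Real.rpow_neg hk2.le]
  obtain ⟨m, hm⟩ : ∃ m, m = (mu d p).real {ω : V d → Bool | a ≤ Φ (op ω (bx 0 n))} := ⟨_, rfl⟩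
  rw [← hm] at h4 ⊢
  have h8 : ((k : ℝ) + 2) ^ A * (((k : ℝ) + 2) ^ s * m) ≤ ((k : ℝ) + 2) ^ A * (1 / c) := by
    calc ((k : ℝ) + 2) ^ A * (((k : ℝ) + 2) ^ s * m) =
          ((k : ℝ) + 2) ^ A * ((k : ℝ) + 2) ^ s * m := by ring
      _ ≤ ((k : ℝ) + 2) ^ A / c := h4
      _ = _ := by ring
  have h9 := le_of_mul_le_mul_left h8 h6
  calc m = (((k : ℝ) + 2) ^ s)⁻¹ * (((k : ℝ) + 2) ^ s * m) := by field_simp
    _ ≤ (((k : ℝ) + 2) ^ s)⁻¹ * (1 / c) := mul_le_mul_of_nonneg_left h9 (by positivity)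
    _ = _ := by ring

/-- the sets in the level sets -/
lemma good_set {ω : V d → Bool} {z : V d} {k n : ℕ} {a : ℝ} (hω : ω ∈ Good z k n a) {x : V d}
    (hx : x ∈ bx z k) (hxo : ω x = true) : ∃ H : Finset (V d),
      x ∈ H ∧ ((openGraph ω univ).induce (H : Set (V d))).Connected ∧
      cluster ω (bx z k : Set (V d)) x ⊆ H ∧ H ⊆ bx z n ∧
      ((bdry ω H).ncard : ℝ) ^ 2 ≤ 2 * d * (1 + Real.log (bx z n).card) * a * H.card := by
  obtain ⟨f, h1, h2, h3, h4⟩ := hω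
  obtain ⟨t, ht, h5⟩ := level ω h1 h2 hxo (h3 x hx)
  refine ⟨Hf ω f (bx z n) x t, ?_, Hf_conn h1 ht hxo (h3 x hx), ?_, ?_, ?_⟩
  · rw [mem_Hf h1 ht.1]
    exact mem_self hxo (show t ≤ f x by rw [h3 x hx]; exact ht.2)
  · intro y hy
    rw [Finset.mem_coe, mem_Hf h1 ht.1]
    refine cluster_mono (fun w hw => ?_) x hy
    show t ≤ f w
    rw [h3 w (Finset.mem_coe.1 hw)]
    exact ht.2
  · intro y hy
    classical
    unfold Hf at hy
    exact (Finset.mem_filter.1 hy).1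
  · refine h5.trans ?_
    have h6 : 0 ≤ Real.log (bx z n).card := by
      rcases Nat.eq_zero_or_pos (bx z n).card with h | h
      · rw [h]; simp
      · exact Real.log_nonneg (by exact_mod_cast h)
    have h7 : (0 : ℝ) ≤ 2 * d * (1 + Real.log (bx z n).card) := by positivity
    exact mul_le_mul_of_nonneg_right (mul_le_mul_of_nonneg_left h4 h7) (Nat.cast_nonneg _)

lemma log_card (z : V d) (k A : ℕ) :
    1 + Real.log (bx z ((k + 2) ^ A)).card ≤ (2 + 2 * d + d * A) * Real.log ((k : ℝ) + 2) := by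
  have hk : (2 : ℝ) ≤ (k : ℝ) + 2 := by
    have : (0 : ℝ) ≤ k := Nat.cast_nonneg k
    linarith
  have hk0 : (0 : ℝ) < (k : ℝ) + 2 := by linarith
  have h2 : Real.log 2 ≤ Real.log ((k : ℝ) + 2) := Real.log_le_log (by norm_num) hk
  have h1 : (1 : ℝ) ≤ 2 * Real.log 2 := by
    have := Real.log_two_gt_d9
    linarith
  have h3 : Real.log 3 ≤ 2 * Real.log 2 := by
    have : Real.log 3 ≤ Real.log (2 ^ 2) := Real.log_le_log (by norm_num) (by norm_num)
    rwa [Real.log_pow] at this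
  have h4 : Real.log (bx z ((k + 2) ^ A)).card ≤ d * (Real.log 3 + A * Real.log ((k : ℝ) + 2)) := by
    rw [card_bx]
    push_cast
    rw [Real.log_pow]
    refine mul_le_mul_of_nonneg_left ?_ (Nat.cast_nonneg d)
    rw [← Real.log_pow, ← Real.log_mul (by norm_num) (by positivity)]
    refine Real.log_le_log (by positivity) ?_
    have : (1 : ℝ) ≤ ((k : ℝ) + 2) ^ A := one_le_pow₀ (by linarith)
    linarith
  have hd0 : (0 : ℝ) ≤ d := Nat.cast_nonneg d
  have h5 : (d : ℝ) * Real.log 3 ≤ d * (2 * Real.log ((k : ℝ) + 2)) :=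
    mul_le_mul_of_nonneg_left (by linarith) hd0
  calc 1 + Real.log (bx z ((k + 2) ^ A)).card
      ≤ 2 * Real.log ((k : ℝ) + 2) + d * (Real.log 3 + A * Real.log ((k : ℝ) + 2)) := by
        linarith
    _ = 2 * Real.log ((k : ℝ) + 2) + (d * Real.log 3 + d * A * Real.log ((k : ℝ) + 2)) := by ring
    _ ≤ 2 * Real.log ((k : ℝ) + 2) + (d * (2 * Real.log ((k : ℝ) + 2)) +
        d * A * Real.log ((k : ℝ) + 2)) := by linarith
    _ = _ := by ring

/-- the properties of the sets -/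
def Sm (ω : V d → Bool) (z x : V d) (k n : ℕ) (b : ℝ) (H : Finset (V d)) : Prop :=
  x ∈ H ∧ ((openGraph ω univ).induce (H : Set (V d))).Connected ∧
    cluster ω (bx z k : Set (V d)) x ⊆ H ∧ H ⊆ bx z n ∧
    ((bdry ω H).ncard : ℝ) ≤ b * (√(H.card : ℝ) * Real.log ((k : ℝ) + 2))

lemma good_sm {A : ℕ} (hA : 1 ≤ A) : ∃ C : ℝ, 1 ≤ C ∧ ∀ (ω : V d → Bool) (z : V d) (k : ℕ) (s : ℝ),
    0 ≤ s → ω ∈ Good z k ((k + 2) ^ A) (16 * d * ((A + s) * Real.log ((k : ℝ) + 2))) →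
      ∀ x ∈ bx z k, ω x = true → ∃ H, Sm ω z x k ((k + 2) ^ A) (C * (1 + s)) H := by
  have hA1 : (1 : ℝ) ≤ A := by exact_mod_cast hA
  obtain ⟨C, hC⟩ : ∃ C : ℝ, C = 1 + 32 * d ^ 2 * (2 + 2 * d + d * A) * A := ⟨_, rfl⟩
  have hC1 : 1 ≤ C := by
    rw [hC]
    have : (0 : ℝ) ≤ 32 * d ^ 2 * (2 + 2 * d + d * A) * A := by positivity
    linarith
  refine ⟨C, hC1, fun ω z k s hs hω x hx hxo => ?_⟩
  obtain ⟨H, h1, h2, h3, h4, h5⟩ := good_set hω hx hxo
  refine ⟨H, h1, h2, h3, h4, ?_⟩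
  have hl : 0 ≤ Real.log ((k : ℝ) + 2) := Real.log_nonneg (by
    have : (0 : ℝ) ≤ k := Nat.cast_nonneg k
    linarith)
  obtain ⟨L, hL⟩ : ∃ L, L = Real.log ((k : ℝ) + 2) := ⟨_, rfl⟩
  have h6 := log_card z k A
  rw [← hL] at h5 h6 hl ⊢
  obtain ⟨h, hh⟩ : ∃ h : ℝ, h = H.card := ⟨_, rfl⟩
  have hh0 : 0 ≤ h := by rw [hh]; positivity
  rw [← hh] at h5 ⊢
  have h7 : ((bdry ω H).ncard : ℝ) ^ 2 ≤ (C * (1 + s) * (√h * L)) ^ 2 := by
    calc ((bdry ω H).ncard : ℝ) ^ 2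
        ≤ 2 * d * (1 + Real.log (bx z ((k + 2) ^ A)).card) * (16 * d * ((A + s) * L)) * h := h5
      _ ≤ 2 * d * ((2 + 2 * d + d * A) * L) * (16 * d * ((A + s) * L)) * h := by
          have : (0 : ℝ) ≤ 16 * d * ((A + s) * L) := by positivity
          gcongr
      _ = (32 * d ^ 2 * (2 + 2 * d + d * A) * (A + s)) * (h * L ^ 2) := by ring
      _ ≤ (C * (1 + s)) * (h * L ^ 2) := by
          refine mul_le_mul_of_nonneg_right ?_ (by positivity)
          have h8 : (A : ℝ) + s ≤ A * (1 + s) := by nlinarith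
          calc 32 * (d : ℝ) ^ 2 * (2 + 2 * d + d * A) * (A + s)
              ≤ 32 * (d : ℝ) ^ 2 * (2 + 2 * d + d * A) * (A * (1 + s)) := by gcongr
            _ = (32 * (d : ℝ) ^ 2 * (2 + 2 * d + d * A) * A) * (1 + s) := by ring
            _ ≤ C * (1 + s) := by
                refine mul_le_mul_of_nonneg_right ?_ (by positivity)
                rw [hC]
                linarith
      _ ≤ (C * (1 + s)) ^ 2 * (h * L ^ 2) := by
          refine mul_le_mul_of_nonneg_right ?_ (by positivity)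
          have h9 : 1 ≤ C * (1 + s) := by nlinarith
          nlinarith
      _ = (C * (1 + s)) ^ 2 * (√h ^ 2 * L ^ 2) := by rw [Real.sq_sqrt hh0]
      _ = (C * (1 + s) * (√h * L)) ^ 2 := by ring
  have h10 : 0 ≤ C * (1 + s) * (√h * L) := by positivity
  exact abs_le_of_sq_le_sq' h7 h10 |>.2

lemma Sm.mono {ω : V d → Bool} {z x : V d} {k n n' : ℕ} {b b' : ℝ} {H : Finset (V d)}
    (h : Sm ω z x k n b H) (hn : n ≤ n') (hb : b ≤ b') : Sm ω z x k n' b' H := by
  refine ⟨h.1, h.2.1, h.2.2.1, h.2.2.2.1.trans (bx_mono' z hn), h.2.2.2.2.trans ?_⟩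
  refine mul_le_mul_of_nonneg_right hb (mul_nonneg (Real.sqrt_nonneg _) (Real.log_nonneg ?_))
  have : (0 : ℝ) ≤ k := Nat.cast_nonneg k
  linarith

/-- **Finite-size form.** -/
theorem iso_fin (hd : 3 ≤ d) : ∃ (A : ℕ) (c C : ℝ), 1 ≤ A ∧ 0 < c ∧ 0 < C ∧
    ∀ (k : ℕ) (p : unitInterval), (p : ℝ) ≤ pc d + c / ((k : ℝ) + 2) ^ A →
      ∀ (z : V d) (s : ℝ), 0 ≤ s →
        (mu d p) {ω | ∃ x ∈ bx z k, ω x = true ∧
          ∀ H, ¬ Sm ω z x k ((k + 2) ^ A) (C * (1 + s)) H} ≤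
          ENNReal.ofReal (C * ((k : ℝ) + 2) ^ (-s)) := by
  obtain ⟨A, B, c, hA, hc, hc1, h⟩ := good_prob hd
  obtain ⟨C, hC, hsm⟩ := good_sm (d := d) hA
  have hAB : 1 ≤ A + B := by omega
  refine ⟨A + B, c, C + 1 / c, hAB, hc, by positivity, fun k p hp z s hs => ?_⟩
  have hk1 : (1 : ℝ) ≤ (k : ℝ) + 2 := by
    have : (0 : ℝ) ≤ k := Nat.cast_nonneg k
    linarith
  have hp' : (p : ℝ) ≤ pc d + c / ((k : ℝ) + 2) ^ B := by
    refine hp.trans (add_le_add le_rfl ?_)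
    exact div_le_div_of_nonneg_left hc.le (by positivity) (pow_le_pow_right₀ hk1 (by omega))
  have hr : 0 ≤ ((k : ℝ) + 2) ^ (-s) := by positivity
  refine le_trans (measure_mono fun ω hω => ?_) ((h k p hp' z s).trans
    (ENNReal.ofReal_le_ofReal ?_))
  · obtain ⟨x, hx, hxo, hH⟩ := hω
    intro hg
    obtain ⟨H, hHs⟩ := hsm ω z k s hs hg x hx hxo
    refine hH H (hHs.mono (Nat.pow_le_pow_right (by omega) (by omega)) ?_)
    refine mul_le_mul_of_nonneg_right ?_ (by positivity)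
    have : 0 < 1 / c := by positivity
    linarith
  · calc ((k : ℝ) + 2) ^ (-s) / c = (1 / c) * ((k : ℝ) + 2) ^ (-s) := by ring
      _ ≤ (C + 1 / c) * ((k : ℝ) + 2) ^ (-s) := by
        refine mul_le_mul_of_nonneg_right ?_ hr
        linarith

/-- an infinite cluster has at least `k + 1` vertices connected to `x` in the box of radius `k` -/
lemma inf_card {ω : V d → Bool} {x : V d} (hinf : (cluster ω univ x).Infinite) (k : ℕ)
    {H : Finset (V d)} (hH : cluster ω (bx x k : Set (V d)) x ⊆ H) : k + 1 ≤ H.card := by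
  have hxo : ω x = true := by
    obtain ⟨y, hy⟩ := hinf.nonempty
    exact hy.1.1
  have hw : ∀ j : ℕ, ∃ w ∈ Sp x j, (openGraph ω (bx x j : Set (V d))).Reachable x w := by
    intro j
    by_contra hcon
    push Not at hcon
    refine hinf ((bx x j).finite_toSet.subset ?_)
    rintro y ⟨-, hr⟩
    have hx : x ∈ bx x j := by
      rw [mem_bx]
      intro i
      simp
    rcases reach_exit hx hr with h2 | ⟨w, hw, h2⟩
    · exact h2.2
    · exact absurd h2 (hcon w hw)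
  choose w hw1 hw2 using hw
  have hinj : Function.Injective w := by
    intro a b hab
    have h1 := hw1 a
    have h2 := hw1 b
    rw [hab] at h1
    rcases lt_trichotomy a b with h | h | h
    · exact absurd h2 (sp_disj h h1.1)
    · exact h
    · exact absurd h1 (sp_disj h h2.1)
  have hsub : (Finset.range (k + 1)).image w ⊆ H := by
    intro y hy
    obtain ⟨j, hj, rfl⟩ := Finset.mem_image.1 hy
    rw [Finset.mem_range] at hj
    have hjk : bx x j ⊆ bx x k := bx_mono' x (by omega)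
    refine Finset.mem_coe.1 (hH ⟨⟨hxo, ?_⟩, (hw2 j).mono ?_⟩)
    · rw [Finset.mem_coe, mem_bx]
      intro i
      simp
    · intro a b hab
      exact ⟨hab.1, ⟨hjk hab.2.1.1, hab.2.1.2⟩, ⟨hjk hab.2.2.1, hab.2.2.2⟩⟩
  calc k + 1 = ((Finset.range (k + 1)).image w).card := by
        rw [Finset.card_image_of_injective _ hinj, Finset.card_range]
    _ ≤ H.card := Finset.card_le_card hsub

/-- **Almost sure form.** -/
theorem iso_dim (hd : 3 ≤ d) : ∃ (A : ℕ) (C : ℝ), 0 < C ∧ ∀ (p : unitInterval), p ≤ pc d →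
    ∀ M : ℕ, ∀ᵐ ω ∂(mu d p), ∃ k0 : ℕ, ∀ k : ℕ, k0 ≤ k → ∀ x ∈ bx (0 : V d) (k ^ M),
      (cluster ω univ x).Infinite → ∃ H : Finset (V d),
        ((openGraph ω univ).induce (H : Set (V d))).Connected ∧
        cluster ω (bx x k : Set (V d)) x ⊆ H ∧ H ⊆ bx x (k ^ A) ∧
        ((bdry ω H).ncard : ℝ) ≤ C * (M + 1) * (√(H.card : ℝ) * Real.log H.card) := by
  obtain ⟨A, B, c, hA, hc, hc1, h⟩ := good_prob hd
  obtain ⟨C, hC, hsm⟩ := good_sm (d := d) hA
  refine ⟨2 * A, 2 * (C * (d + 3)), by positivity, fun p hp M => ?_⟩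
  obtain ⟨s, hs⟩ : ∃ s : ℝ, s = (d : ℝ) * M + 2 := ⟨_, rfl⟩
  have hs0 : 0 ≤ s := by rw [hs]; positivity
  obtain ⟨E, hE⟩ : ∃ E : ℕ → Set (V d → Bool), E = fun k =>
      ⋃ z ∈ bx (0 : V d) (k ^ M),
        (Good z k ((k + 2) ^ A) (16 * d * ((A + s) * Real.log ((k : ℝ) + 2))))ᶜ := ⟨_, rfl⟩
  have hEk : ∀ k : ℕ, (mu d p) (E k) ≤ ENNReal.ofReal (3 ^ d / c * (1 / ((k : ℝ) + 2) ^ 2)) := by
    intro k
    have hk2 : (0 : ℝ) < (k : ℝ) + 2 := by positivity
    have hk1 : (1 : ℝ) ≤ (k : ℝ) + 2 := by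
      have : (0 : ℝ) ≤ k := Nat.cast_nonneg k
      linarith
    have h1 := h k p (by
      have h0 : (p : ℝ) ≤ pc d := hp
      have : 0 ≤ c / ((k : ℝ) + 2) ^ B := by positivity
      linarith)
    calc (mu d p) (E k) ≤ ∑ z ∈ bx (0 : V d) (k ^ M), (mu d p)
          (Good z k ((k + 2) ^ A) (16 * d * ((A + s) * Real.log ((k : ℝ) + 2))))ᶜ := by
          rw [hE]
          exact measure_biUnion_finset_le _ _
      _ ≤ ∑ z ∈ bx (0 : V d) (k ^ M), ENNReal.ofReal (((k : ℝ) + 2) ^ (-s) / c) :=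
          Finset.sum_le_sum fun z _ => h1 z s
      _ = ENNReal.ofReal (((2 * k ^ M + 1) ^ d : ℕ) * (((k : ℝ) + 2) ^ (-s) / c)) := by
          rw [Finset.sum_const, card_bx, nsmul_eq_mul, ENNReal.ofReal_mul (Nat.cast_nonneg _),
            ENNReal.ofReal_natCast]
      _ ≤ ENNReal.ofReal (3 ^ d / c * (1 / ((k : ℝ) + 2) ^ 2)) := by
          refine ENNReal.ofReal_le_ofReal ?_
          have h3 : (((2 * k ^ M + 1) ^ d : ℕ) : ℝ) ≤ 3 ^ d * ((k : ℝ) + 2) ^ (d * M) := by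
            push_cast
            have h4 : (2 * (k : ℝ) ^ M + 1) ≤ 3 * ((k : ℝ) + 2) ^ M := by
              have h5 : (k : ℝ) ^ M ≤ ((k : ℝ) + 2) ^ M :=
                pow_le_pow_left₀ (Nat.cast_nonneg k) (by linarith) M
              have h6 : (1 : ℝ) ≤ ((k : ℝ) + 2) ^ M := one_le_pow₀ hk1
              linarith
            calc (2 * (k : ℝ) ^ M + 1) ^ d ≤ (3 * ((k : ℝ) + 2) ^ M) ^ d :=
                  pow_le_pow_left₀ (by positivity) h4 d
              _ = 3 ^ d * ((k : ℝ) + 2) ^ (d * M) := by rw [mul_pow, ← pow_mul, mul_comm M d]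
          have h7 : ((k : ℝ) + 2) ^ (-s) = 1 / (((k : ℝ) + 2) ^ (d * M) * ((k : ℝ) + 2) ^ 2) := by
            rw [Real.rpow_neg hk2.le, hs, Real.rpow_add hk2, one_div]
            congr 2
            · rw [← Real.rpow_natCast]
              push_cast
              rfl
            · exact_mod_cast Real.rpow_natCast ((k : ℝ) + 2) 2
          rw [h7]
          calc (((2 * k ^ M + 1) ^ d : ℕ) : ℝ) *
                (1 / (((k : ℝ) + 2) ^ (d * M) * ((k : ℝ) + 2) ^ 2) / c)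
              ≤ (3 ^ d * ((k : ℝ) + 2) ^ (d * M)) *
                (1 / (((k : ℝ) + 2) ^ (d * M) * ((k : ℝ) + 2) ^ 2) / c) :=
                mul_le_mul_of_nonneg_right h3 (by positivity)
            _ = 3 ^ d / c * (1 / ((k : ℝ) + 2) ^ 2) := by
                field_simp
  have hsum : Summable fun k : ℕ => 3 ^ d / c * (1 / ((k : ℝ) + 2) ^ 2) := by
    refine Summable.mul_left _ ?_
    have h7 := (summable_nat_add_iff 2).2 (Real.summable_one_div_nat_pow.2 (one_lt_two))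
    refine h7.congr fun k => ?_
    push_cast
    rfl
  have htop : (∑' k, (mu d p) (E k)) ≠ ∞ := by
    refine ne_top_of_le_ne_top ?_ (ENNReal.tsum_le_tsum hEk)
    rw [← ENNReal.ofReal_tsum_of_nonneg (fun k => by positivity) hsum]
    exact ENNReal.ofReal_ne_top
  filter_upwards [ae_eventually_notMem htop] with ω hω
  obtain ⟨k0, hk0⟩ := eventually_atTop.1 hω
  refine ⟨max k0 2, fun k hk x hx hinf => ?_⟩
  have hk2 : 2 ≤ k := (le_max_right _ _).trans hk
  have h8 := hk0 k ((le_max_left _ _).trans hk)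
  rw [hE] at h8
  simp only [mem_iUnion, not_exists] at h8
  have h9 := h8 x hx
  rw [notMem_compl_iff] at h9
  have hxo : ω x = true := by
    obtain ⟨y, hy⟩ := hinf.nonempty
    exact hy.1.1
  obtain ⟨H, h10, h11, h12, h13, h14⟩ := hsm ω x k s hs0 h9 x (by
    rw [mem_bx]
    intro i
    simp) hxo
  have hcard := inf_card hinf k h12
  have hkk : k + 2 ≤ k ^ 2 := by nlinarith
  refine ⟨H, h11, h12, h13.trans (bx_mono' x ?_), h14.trans ?_⟩
  · rw [pow_mul]
    exact Nat.pow_le_pow_left hkk A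
  · have hk2' : (2 : ℝ) ≤ k := by exact_mod_cast hk2
    have hl : Real.log ((k : ℝ) + 2) ≤ 2 * Real.log H.card := by
      have h15 : Real.log ((k : ℝ) + 2) ≤ Real.log ((k : ℝ) ^ 2) :=
        Real.log_le_log (by positivity) (by exact_mod_cast hkk)
      rw [Real.log_pow] at h15
      have h16 : Real.log k ≤ Real.log H.card :=
        Real.log_le_log (by linarith) (by exact_mod_cast (by omega : k ≤ H.card))
      push_cast at h15
      linarith
    have hlH : 0 ≤ Real.log H.card := Real.log_nonneg (by exact_mod_cast (by omega : 1 ≤ H.card))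
    have h17 : 1 + s ≤ (d + 3) * ((M : ℝ) + 1) := by
      rw [hs]
      have : (0 : ℝ) ≤ M := Nat.cast_nonneg M
      have : (0 : ℝ) ≤ d := Nat.cast_nonneg d
      nlinarith
    have hl0 : 0 ≤ Real.log ((k : ℝ) + 2) := Real.log_nonneg (by linarith)
    calc C * (1 + s) * (√(H.card : ℝ) * Real.log ((k : ℝ) + 2))
        ≤ C * ((d + 3) * ((M : ℝ) + 1)) * (√(H.card : ℝ) * (2 * Real.log H.card)) := by
          gcongr
      _ = _ := by ring

end

end Pool.Agent.H580.EC
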